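import Pool.Agent.W680.WH.Stm

set_option autoImplicit false

open scoped ComplexConjugate InnerProductSpace

namespace Pool.Agent.W816.WH.Kn2

open Pool.Agent.W680.WH ContinuousLinearMap Filter

theorem kn2 (hOM : S_OM) (hOPA : S_OPA) (hOPC : S_OPC) (hOPR : S_OPR) : S_KN2 := by
  intro P m k W A l hm hP hPm hk hWP hl hAZ hA0 hWA
  obtain ⟨-, -, hsub, -, -⟩ := hOM
  obtain ⟨-, -, ⟨hZeb, -⟩, -⟩ := hOPA
  obtain ⟨c1, c2, -, -, c5, c6, c7, c8, c9, c10, c11, c12, -, c14, -, -, -, -⟩ := hOPC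
  obtain ⟨r1, -, -, -, -, r6, -⟩ := hOPR
  have hl0 : l ≠ 0 := by
    intro h
    rw [h, norm_zero] at hl
    norm_num at hl
  -- bilinear form
  have hN : ∀ f g : E, ⟪f, (adjoint A * P * A) g⟫_ℂ = ⟪A f, P (A g)⟫_ℂ := by
    intro f g
    show ⟪f, adjoint A (P (A g))⟫_ℂ = _
    rw [adjoint_inner_right]
  have hNs : ∀ f g : E, ⟪(adjoint A * P * A) f, g⟫_ℂ = ⟪f, (adjoint A * P * A) g⟫_ℂ := by
    intro f g
    rw [hN]
    show ⟪adjoint A (P (A f)), g⟫_ℂ = _
    rw [adjoint_inner_left]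
    nth_rewrite 1 [← hP]
    rw [adjoint_inner_left]
  -- invariance
  have hinv : ∀ f g : E, ⟪A (R k⁻¹ f), P (A (R k⁻¹ g))⟫_ℂ = ⟪A f, P (A g)⟫_ℂ := by
    intro f g
    have h1 : ∀ x : E, A (R k⁻¹ x) = l⁻¹ • (W : E →L[ℂ] E) (A x) := by
      intro x
      have h2 : (W : E →L[ℂ] E) (A x) = l • A (R k⁻¹ x) :=
        congrArg (fun B : E →L[ℂ] E => B x) hWA
      rw [h2, smul_smul, inv_mul_cancel₀ hl0, one_smul]
    rw [h1, h1, map_smul, inner_smul_left, inner_smul_right]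
    have h3 : ⟪(W : E →L[ℂ] E) (A f), P ((W : E →L[ℂ] E) (A g))⟫_ℂ = ⟪A f, P (A g)⟫_ℂ := by
      rw [← adjoint_inner_right]
      exact congrArg (fun B : E →L[ℂ] E => ⟪A f, B (A g)⟫_ℂ) hWP
    rw [h3, ← mul_assoc]
    have h4 : conj l⁻¹ * l⁻¹ = 1 := by
      rw [← Complex.normSq_eq_conj_mul_self, Complex.normSq_eq_norm_sq, norm_inv, hl]
      norm_num
    rw [h4, one_mul]
  -- off-diagonal entries
  have hoff : ∀ n n' : ℤ, n ≠ n' → ⟪eb n, (adjoint A * P * A) (eb n')⟫_ℂ = 0 := by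
    intro n n' hn
    rw [hN]
    have h1 := hinv (eb n) (eb n')
    rw [r1, r1, map_smul, map_smul, map_smul, inner_smul_left, inner_smul_right, ← mul_assoc] at h1
    have h2 : conj ((((k⁻¹) ^ n : Circle)) : ℂ) * (((k⁻¹) ^ n' : Circle) : ℂ) =
        ((k ^ (n - n') : Circle) : ℂ) := by
      rw [← Circle.coe_inv_eq_conj, ← Circle.coe_mul]
      congr 1
      rw [inv_zpow, inv_inv, inv_zpow, zpow_sub]
    rw [h2] at h1
    have h3 : ((k ^ (n - n') : Circle) : ℂ) ≠ 1 := by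
      intro h
      exact hk (n - n') (sub_ne_zero.2 hn) (Circle.ext (by rw [h, Circle.coe_one]))
    have h4 : (((k ^ (n - n') : Circle) : ℂ) - 1) * ⟪A (eb n), P (A (eb n'))⟫_ℂ = 0 := by
      rw [sub_mul, one_mul, h1, sub_self]
    exact (mul_eq_zero.1 h4).resolve_left (sub_ne_zero.2 h3)
  -- coordinates of the columns
  have hcol1 : ∀ n j : ℤ, co (A (eb (n + 1))) (j + 1) = co (A (eb n)) j := by
    intro n j
    have h1 : A (eb (n + 1)) = Z (A (eb n)) := by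
      rw [← hZeb n]
      exact congrArg (fun B : E →L[ℂ] E => B (eb n)) hAZ
    rw [h1, c2, add_sub_cancel_right]
  have hcol : ∀ n j : ℤ, co (A (eb n)) (j + n) = co (A (eb 0)) j := by
    intro n
    induction n using Int.induction_on with
    | zero => intro j; rw [add_zero]
    | succ i ih =>
      intro j
      rw [← ih j, ← hcol1 i (j + i), add_assoc]
    | pred i ih =>
      intro j
      have e0 := hcol1 (-(i : ℤ) - 1) (j + (-(i : ℤ) - 1))
      have e1 : (-(i : ℤ) - 1) + 1 = -(i : ℤ) := by ring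
      have e2 : j + (-(i : ℤ) - 1) + 1 = j + -(i : ℤ) := by ring
      rw [e1, e2] at e0
      rw [← ih j, e0]
  have hF : ∃ l0 : ℤ, co (A (eb 0)) l0 ≠ 0 := by
    by_contra hcon
    push Not at hcon
    apply hA0
    apply c14
    intro n
    apply c9
    intro j
    have h1 := hcol n (j - n)
    rw [sub_add_cancel] at h1
    rw [h1, hcon, _root_.zero_apply]
    unfold co
    simp
  obtain ⟨l0, hl0'⟩ := hF
  have hdiag : ∃ c : ℝ, 0 < c ∧ ∀ n : ℤ, c * om n ≤ (⟪eb n, (adjoint A * P * A) (eb n)⟫_ℂ).re := by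
    refine ⟨m * ‖co (A (eb 0)) l0‖ ^ 2 / om (-l0), ?_, fun n => ?_⟩
    · have := om_pos (-l0)
      have := norm_pos_iff.2 hl0'
      positivity
    · rw [hN]
      refine le_trans ?_ (hPm _)
      have h1 : om (l0 + n) * ‖co (A (eb n)) (l0 + n)‖ ^ 2 ≤ ‖A (eb n)‖ ^ 2 := by
        rw [c7]
        exact (c8 (A (eb n))).le_tsum (l0 + n) (fun j _ =>
          mul_nonneg (om_pos j).le (sq_nonneg _))
      rw [hcol] at h1
      have h2 := hsub (-l0) (l0 + n)
      rw [neg_add_cancel_left] at h2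
      have h3 := om_pos (-l0)
      rw [div_mul_eq_mul_div, div_le_iff₀ h3]
      have h4 : 0 ≤ m * ‖co (A (eb 0)) l0‖ ^ 2 := by positivity
      calc m * ‖co (A (eb 0)) l0‖ ^ 2 * om n
          ≤ m * ‖co (A (eb 0)) l0‖ ^ 2 * (om (-l0) * om (l0 + n)) :=
            mul_le_mul_of_nonneg_left h2 h4
        _ = m * (om (l0 + n) * ‖co (A (eb 0)) l0‖ ^ 2) * om (-l0) := by ring
        _ ≤ m * ‖A (eb n)‖ ^ 2 * om (-l0) :=
            mul_le_mul_of_nonneg_right (mul_le_mul_of_nonneg_left h1 hm.le) h3.le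
  refine ⟨hoff, hdiag, ?_⟩
  obtain ⟨c, hc, hcd⟩ := hdiag
  set nu : ℤ → ℂ := fun n => ⟪eb n, (adjoint A * P * A) (eb n)⟫_ℂ with hnu
  have hom0 : ∀ n : ℤ, (om n : ℂ) ≠ 0 := fun n => by exact_mod_cast (om_pos n).ne'
  have heig : ∀ n : ℤ, (adjoint A * P * A) (eb n) = (nu n / (om n : ℂ)) • eb n := by
    intro n
    apply c9
    intro j
    have h1 := c10 j ((adjoint A * P * A) (eb n))
    rw [c6, c1]
    by_cases hj : j = n
    · subst hj
      rw [if_pos rfl, mul_one]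
      rw [eq_div_iff (hom0 j), mul_comm]
      exact h1.symm
    · rw [if_neg hj, mul_zero]
      rw [hoff j n hj] at h1
      exact (mul_eq_zero.1 h1.symm).resolve_left (hom0 j)
  have hco : ∀ (f : E) (n : ℤ), (om n : ℂ) * co ((adjoint A * P * A) f) n = conj (nu n) * co f n := by
    intro f n
    rw [← c10, ← hNs, heig, inner_smul_left, c10, map_div₀, Complex.conj_ofReal]
    have := hom0 n
    field_simp
  have hform : ∀ f : E, c * ‖f‖ ^ 2 ≤ (⟪f, (adjoint A * P * A) f⟫_ℂ).re := by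
    intro f
    rw [c11, c7, ← tsum_mul_left]
    have hs := c12 f ((adjoint A * P * A) f)
    rw [Complex.re_tsum hs]
    refine ((c8 f).mul_left c).tsum_le_tsum (fun n => ?_) (Complex.reCLM.summable hs)
    have h1 : (om n : ℂ) * (conj (co f n) * co ((adjoint A * P * A) f) n) =
        conj (nu n) * ((‖co f n‖ ^ 2 : ℝ) : ℂ) := by
      calc (om n : ℂ) * (conj (co f n) * co ((adjoint A * P * A) f) n)
          = conj (co f n) * ((om n : ℂ) * co ((adjoint A * P * A) f) n) := by ring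
        _ = conj (co f n) * (conj (nu n) * co f n) := by rw [hco]
        _ = conj (nu n) * (conj (co f n) * co f n) := by ring
        _ = conj (nu n) * ((‖co f n‖ ^ 2 : ℝ) : ℂ) := by
            rw [← Complex.normSq_eq_conj_mul_self, Complex.normSq_eq_norm_sq]
    rw [h1, Complex.re_mul_ofReal, Complex.conj_re, ← mul_assoc]
    exact mul_le_mul_of_nonneg_right (hcd n) (sq_nonneg _)
  refine ⟨Real.sqrt (c / (‖P‖ + 1)), Real.sqrt_pos.2 (by positivity), fun f => ?_⟩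
  have h1 := hform f
  rw [hN] at h1
  have h2 : (⟪A f, P (A f)⟫_ℂ).re ≤ (‖P‖ + 1) * ‖A f‖ ^ 2 := by
    calc (⟪A f, P (A f)⟫_ℂ).re ≤ ‖⟪A f, P (A f)⟫_ℂ‖ := Complex.re_le_norm _
      _ ≤ ‖A f‖ * ‖P (A f)‖ := norm_inner_le_norm _ _
      _ ≤ ‖A f‖ * (‖P‖ * ‖A f‖) :=
          mul_le_mul_of_nonneg_left (P.le_opNorm _) (norm_nonneg _)
      _ ≤ (‖P‖ + 1) * ‖A f‖ ^ 2 := by nlinarith [sq_nonneg ‖A f‖]
  have h3 : c / (‖P‖ + 1) * ‖f‖ ^ 2 ≤ ‖A f‖ ^ 2 := by
    rw [div_mul_eq_mul_div, div_le_iff₀ (by positivity)]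
    linarith
  have h4 : (Real.sqrt (c / (‖P‖ + 1)) * ‖f‖) ^ 2 ≤ ‖A f‖ ^ 2 := by
    rw [mul_pow, Real.sq_sqrt (by positivity)]
    exact h3
  exact le_of_sq_le_sq h4 (norm_nonneg _)

end Pool.Agent.W816.WH.Kn2
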